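import Pool.Agent.H.MP_601622_gt.Main

set_option autoImplicit false

namespace Pool.Agent.Results.MP_601622_gt.NotEquiHolder

open Pool.Agent.H.MP_601622_gt

open scoped lp ENNReal

/-- There is a metric fractal `(K, F)` that is not equi-Hölder equivalent to any fractal in `ℓ₂`;
in fact there is not even an equi-Hölder map from `K` into `ℓ₂`. -/
theorem result : ∃ (K : Type) (_ : MetricSpace K) (F : Set (K → K)),
    IsMetricFractal K F ∧ (∀ h : K → ℓ²(ℕ, ℝ), ¬ IsEquiHolder h) ∧
    ∀ (K' : Set ℓ²(ℕ, ℝ)) (F' : Set (K' → K')),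
      IsFractalIn K' F' → ¬ EquiHolderEquivalent F F' :=
  main

end Pool.Agent.Results.MP_601622_gt.NotEquiHolder
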